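import Pool.Agent.helper2.BB.Spec

/-!
# C4a: second order expansion of one stage
-/

set_option autoImplicit false
set_option linter.unusedVariables false
set_option linter.unusedSectionVars false

namespace BB

open Metric MeasureTheory Set Filter Topology Asymptotics
open Pool.Agent.helper37.PR

/-- second order expansion -/
def C4a_E2 (f : ℝ → ℂ) (a b : ℂ) : Prop :=
  (fun κ : ℝ => f κ - a - (κ : ℂ) ^ 2 * b) =o[𝓝 0] fun κ : ℝ => κ ^ 2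

/-- first order expansion -/
def C4a_E1 (f : ℝ → ℂ) (b : ℂ) : Prop :=
  (fun κ : ℝ => f κ - (κ : ℂ) * b) =o[𝓝 0] fun κ : ℝ => κ

lemma C4a_sqO (b : ℂ) : (fun κ : ℝ => (κ : ℂ) ^ 2 * b) =O[𝓝 0] fun κ : ℝ => κ ^ 2 := by
  refine IsBigO.of_bound ‖b‖ (Eventually.of_forall fun κ => ?_)
  rw [norm_mul, norm_pow, norm_pow, Complex.norm_real, mul_comm]

lemma C4a_idO (b : ℂ) : (fun κ : ℝ => (κ : ℂ) * b) =O[𝓝 0] fun κ : ℝ => κ := by
  refine IsBigO.of_bound ‖b‖ (Eventually.of_forall fun κ => ?_)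
  rw [norm_mul, Complex.norm_real, mul_comm]

lemma C4a_E2.sub_isBigO {f : ℝ → ℂ} {a b : ℂ} (h : C4a_E2 f a b) :
    (fun κ => f κ - a) =O[𝓝 0] fun κ : ℝ => κ ^ 2 := by
  have h1 : (fun κ => f κ - a) = fun κ : ℝ => (f κ - a - (κ : ℂ) ^ 2 * b) + (κ : ℂ) ^ 2 * b := by
    funext κ
    ring
  rw [h1]
  exact h.isBigO.add (C4a_sqO b)

lemma C4a_sqo : (fun κ : ℝ => κ ^ 2) =o[𝓝 0] fun κ : ℝ => κ := by
  have := isLittleO_pow_id (𝕜 := ℝ) (n := 2) (by norm_num)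
  exact this

lemma C4a_id_tendsto : Tendsto (fun κ : ℝ => κ) (𝓝 0) (𝓝 0) := tendsto_id

lemma C4a_sq_tendsto : Tendsto (fun κ : ℝ => κ ^ 2) (𝓝 0) (𝓝 0) := by
  have : Continuous fun κ : ℝ => κ ^ 2 := by fun_prop
  have h := this.tendsto 0
  simpa using h

lemma C4a_E2.tendsto {f : ℝ → ℂ} {a b : ℂ} (h : C4a_E2 f a b) : Tendsto f (𝓝 0) (𝓝 a) := by
  have h1 := h.sub_isBigO.trans_tendsto C4a_sq_tendsto
  have h2 := h1.add_const a
  simpa using h2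

lemma C4a_E1.isBigO {f : ℝ → ℂ} {b : ℂ} (h : C4a_E1 f b) : f =O[𝓝 0] fun κ : ℝ => κ := by
  have h1 : f = fun κ : ℝ => (f κ - (κ : ℂ) * b) + (κ : ℂ) * b := by
    funext κ
    ring
  rw [h1]
  exact (IsLittleO.isBigO h).add (C4a_idO b)

lemma C4a_E2.mul {f g : ℝ → ℂ} {a b c d : ℂ} (hf : C4a_E2 f a b) (hg : C4a_E2 g c d) :
    C4a_E2 (fun κ => f κ * g κ) (a * c) (a * d + b * c) := by
  have h1 : (fun κ : ℝ => (f κ - a) * (g κ - c)) =o[𝓝 0] fun κ : ℝ => κ ^ 2 := by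
    have h2 := hf.sub_isBigO.mul hg.sub_isBigO
    refine h2.trans_isLittleO ?_
    have h3 : (fun κ : ℝ => κ ^ 2 * κ ^ 2) = fun κ : ℝ => κ ^ 4 := by
      funext κ
      ring
    rw [h3]
    exact isLittleO_pow_pow (by norm_num)
  have h2 : (fun κ : ℝ => a * (g κ - c - (κ : ℂ) ^ 2 * d)) =o[𝓝 0] fun κ : ℝ => κ ^ 2 :=
    IsLittleO.const_mul_left hg a
  have h3 : (fun κ : ℝ => c * (f κ - a - (κ : ℂ) ^ 2 * b)) =o[𝓝 0] fun κ : ℝ => κ ^ 2 :=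
    IsLittleO.const_mul_left hf c
  have h4 := (h1.add h2).add h3
  refine h4.congr_left (fun κ => ?_)
  ring

lemma C4a_E2.add {f g : ℝ → ℂ} {a b c d : ℂ} (hf : C4a_E2 f a b) (hg : C4a_E2 g c d) :
    C4a_E2 (fun κ => f κ + g κ) (a + c) (b + d) := by
  have h4 := IsLittleO.add hf hg
  refine h4.congr_left (fun κ => ?_)
  ring

lemma C4a_E2.sub {f g : ℝ → ℂ} {a b c d : ℂ} (hf : C4a_E2 f a b) (hg : C4a_E2 g c d) :
    C4a_E2 (fun κ => f κ - g κ) (a - c) (b - d) := by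
  have h4 := IsLittleO.sub hf hg
  refine h4.congr_left (fun κ => ?_)
  ring

lemma C4a_E1.add {f g : ℝ → ℂ} {b d : ℂ} (hf : C4a_E1 f b) (hg : C4a_E1 g d) :
    C4a_E1 (fun κ => f κ + g κ) (b + d) := by
  have h4 := IsLittleO.add hf hg
  refine h4.congr_left (fun κ => ?_)
  ring

lemma C4a_E1.sub {f g : ℝ → ℂ} {b d : ℂ} (hf : C4a_E1 f b) (hg : C4a_E1 g d) :
    C4a_E1 (fun κ => f κ - g κ) (b - d) := by
  have h4 := IsLittleO.sub hf hg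
  refine h4.congr_left (fun κ => ?_)
  ring

lemma C4a_E1.mul {f g : ℝ → ℂ} {b d : ℂ} (hf : C4a_E1 f b) (hg : C4a_E1 g d) :
    C4a_E2 (fun κ => f κ * g κ) 0 (b * d) := by
  have h1 : (fun κ : ℝ => (f κ - (κ : ℂ) * b) * g κ) =o[𝓝 0] fun κ : ℝ => κ * κ :=
    IsLittleO.mul_isBigO hf hg.isBigO
  have h2 : (fun κ : ℝ => ((κ : ℂ) * b) * (g κ - (κ : ℂ) * d)) =o[𝓝 0] fun κ : ℝ => κ * κ :=
    IsBigO.mul_isLittleO (C4a_idO b) hg
  have h3 := h1.add h2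
  have h5 : (fun κ : ℝ => κ * κ) = fun κ : ℝ => κ ^ 2 := by
    funext κ
    ring
  rw [h5] at h3
  refine h3.congr_left (fun κ => ?_)
  ring

lemma C4a_E1.mul_tendsto {f g : ℝ → ℂ} {b c : ℂ} (hf : C4a_E1 f b) (hg : Tendsto g (𝓝 0) (𝓝 c)) :
    C4a_E1 (fun κ => f κ * g κ) (b * c) := by
  have hg0 : (fun κ => g κ - c) =o[𝓝 0] fun _ : ℝ => (1 : ℝ) := by
    rw [isLittleO_one_iff]
    have := hg.sub_const c
    simpa using this
  have h1 : (fun κ : ℝ => f κ * (g κ - c)) =o[𝓝 0] fun κ : ℝ => κ * 1 :=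
    IsBigO.mul_isLittleO hf.isBigO hg0
  have h2 : (fun κ : ℝ => c * (f κ - (κ : ℂ) * b)) =o[𝓝 0] fun κ : ℝ => κ * 1 := by
    simp only [mul_one]
    exact IsLittleO.const_mul_left hf c
  have h3 := h1.add h2
  simp only [mul_one] at h3
  refine h3.congr_left (fun κ => ?_)
  ring

lemma C4a_E2.comp {f : ℝ → ℂ} {g : ℂ → ℂ} {a b d : ℂ} (hf : C4a_E2 f a b) (hg : HasDerivAt g d a) :
    C4a_E2 (fun κ => g (f κ)) (g a) (d * b) := by
  have h1 : (fun z => g z - g a - (z - a) * d) =o[𝓝 a] fun z => z - a := by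
    have := hg.isLittleO
    simpa [smul_eq_mul] using this
  have h2 : (fun κ => g (f κ) - g a - (f κ - a) * d) =o[𝓝 0] fun κ => f κ - a :=
    h1.comp_tendsto hf.tendsto
  have h3 := h2.trans_isBigO hf.sub_isBigO
  have h4 : (fun κ : ℝ => d * (f κ - a - (κ : ℂ) ^ 2 * b)) =o[𝓝 0] fun κ : ℝ => κ ^ 2 :=
    IsLittleO.const_mul_left hf d
  have h5 := h3.add h4
  refine h5.congr_left (fun κ => ?_)
  ring

lemma C4a_sin (τ : ℝ) : C4a_E1 (fun κ : ℝ => Complex.sin ((τ * κ : ℝ) : ℂ)) τ := by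
  have h1 : HasDerivAt (fun z : ℂ => Complex.sin ((τ : ℂ) * z)) τ ((0 : ℝ) : ℂ) := by
    have h2 : HasDerivAt (fun z : ℂ => (τ : ℂ) * z) ((τ : ℂ) * 1) ((0 : ℝ) : ℂ) :=
      (hasDerivAt_id _).const_mul (τ : ℂ)
    rw [mul_one] at h2
    have h3 := h2.csin
    simpa using h3
  have h4 := h1.comp_ofReal
  have h2 := h4.isLittleO
  unfold C4a_E1
  simpa [smul_eq_mul] using h2

lemma C4a_E1.congr {f g : ℝ → ℂ} {b : ℂ} (hf : C4a_E1 f b) (h : ∀ κ, f κ = g κ) : C4a_E1 g b := by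
  rwa [show g = f from (funext h).symm]

lemma C4a_E2.congr {f g : ℝ → ℂ} {a b : ℂ} (hf : C4a_E2 f a b) (h : ∀ᶠ κ in 𝓝 0, f κ = g κ) :
    C4a_E2 g a b := by
  refine IsLittleO.congr' hf ?_ (EventuallyEq.refl _ _)
  filter_upwards [h] with κ hκ
  rw [hκ]

lemma C4a_E2_const (c : ℂ) : C4a_E2 (fun _ => c) c 0 := by
  unfold C4a_E2
  simp

lemma C4a_cos (τ : ℝ) : C4a_E2 (fun κ : ℝ => Complex.cos ((τ * κ : ℝ) : ℂ)) 1 (-(τ : ℂ) ^ 2 / 2) := by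
  have h1 := (C4a_sin (τ / 2)).mul (C4a_sin (τ / 2))
  have h2 := (C4a_E2_const 1).sub ((C4a_E2_const 2).mul h1)
  have h3 : (fun κ : ℝ => Complex.cos ((τ * κ : ℝ) : ℂ)) = fun κ : ℝ => 1 - 2 *
      (Complex.sin ((τ / 2 * κ : ℝ) : ℂ) * Complex.sin ((τ / 2 * κ : ℝ) : ℂ)) := by
    funext κ
    have h4 : ((τ * κ : ℝ) : ℂ) = 2 * ((τ / 2 * κ : ℝ) : ℂ) := by
      push_cast
      ring
    rw [h4, Complex.cos_two_mul]
    have h5 := Complex.sin_sq_add_cos_sq ((τ / 2 * κ : ℝ) : ℂ)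
    linear_combination 2 * h5
  rw [h3]
  have h6 : (1 : ℂ) = 1 - 2 * 0 := by ring
  have h7 : (-(τ : ℂ) ^ 2 / 2) = 0 - (2 * (((τ / 2 : ℝ) : ℂ) * ((τ / 2 : ℝ) : ℂ)) + 0 * 0) := by
    push_cast
    ring
  rw [h7]
  have h8 : (C4a_E2 (fun κ : ℝ => 1 - 2 *
      (Complex.sin ((τ / 2 * κ : ℝ) : ℂ) * Complex.sin ((τ / 2 * κ : ℝ) : ℂ))) (1 - 2 * 0)
      (0 - (2 * (((τ / 2 : ℝ) : ℂ) * ((τ / 2 : ℝ) : ℂ)) + 0 * 0))) := h2
  rwa [← h6] at h8

/-- the derivative of the one dimensional flow -/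
lemma C4a_psi_deriv (hA1 : A1_stmt) (hA2 : A2_stmt) (hA4 : A4_stmt) (q : ℝ) (A : ℂ) (hq : 0 < q)
    (hq1 : q ≤ 1) (hA : ‖A‖ < 1) :
    HasDerivAt (psi q) (sc q A * Rf A ^ 2 / Rf (psi q A) ^ 2) A := by
  have hmem : A ∈ ball (0 : ℂ) 1 := by simpa using hA
  have h1 : HasDerivAt (psi q) (deriv (psi q) A) A :=
    ((hA4 q hq hq1).2.2.1 A hmem).differentiableAt.hasDerivAt
  obtain ⟨a1, a2, a3, a4, a5, a6, a7, a8, a9, a10⟩ := hA1 q A hq hq1 hA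
  obtain ⟨b1, b2, b3, b4, b5, b6, b7⟩ := hA2 q A hq hq1 hA
  have hQ : Qf q A ≠ 0 := fun h => by rw [h] at a5; simp at a5
  have hR : Rf (psi q A) ≠ 0 := by rw [b5]; exact hQ
  have c9 := (hA1 q (psi q A) hq hq1 b1).2.2.2.2.2.2.2.2.1
  have c3 := (hA1 q (psi q A) hq hq1 b1).2.2.1
  have hK : ∀ w : ℂ, 1 - w ≠ 0 → HasDerivAt Kb ((1 + w) / (1 - w) ^ 3) w := by
    intro w hw
    have e1 : HasDerivAt (fun z : ℂ => (1 - z) ^ 2) (2 * (1 - w) ^ (2 - 1) * (0 - 1)) w := by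
      have e2 : HasDerivAt (fun z : ℂ => 1 - z) (0 - 1) w := (hasDerivAt_const w (1 : ℂ)).sub (hasDerivAt_id w)
      have := e2.pow 2
      exact_mod_cast this
    have e3 := (hasDerivAt_id w).div e1 (pow_ne_zero 2 hw)
    have e4 : (1 * (1 - w) ^ 2 - id w * (2 * (1 - w) ^ (2 - 1) * (0 - 1))) / ((1 - w) ^ 2) ^ 2 =
        (1 + w) / (1 - w) ^ 3 := by
      simp only [id]
      field_simp
      ring
    rw [e4] at e3
    exact e3
  have h2 : HasDerivAt (fun w => Kb (psi q w)) ((1 + psi q A) / (1 - psi q A) ^ 3 * deriv (psi q) A) A :=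
    (hK (psi q A) c9).comp A h1
  have h3 : HasDerivAt (fun w => (q : ℂ) * Kb w) ((q : ℂ) * ((1 + A) / (1 - A) ^ 3)) A :=
    (hK A a9).const_mul _
  have h4 : (fun w => Kb (psi q w)) =ᶠ[𝓝 A] fun w => (q : ℂ) * Kb w := by
    filter_upwards [isOpen_ball.mem_nhds hmem] with w hw
    exact (hA2 q w hq hq1 (by simpa using hw)).2.1
  have h5 := (h2.congr_of_eventuallyEq h4.symm).unique h3
  have h6 : deriv (psi q) A = sc q A * Rf A ^ 2 / Rf (psi q A) ^ 2 := by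
    rw [a3, c3]
    have hS : Sg (psi q A) ≠ 0 := by rw [← c3]; exact pow_ne_zero 2 hR
    have hne : 1 + psi q A ≠ 0 := (hA1 q (psi q A) hq hq1 b1).2.2.2.2.2.2.2.2.2
    unfold sc
    unfold Sg at hS ⊢
    field_simp at h5 ⊢
    linear_combination h5
  rw [← h6]
  exact h1

theorem C4a (hA1 : A1_stmt) (hA2 : A2_stmt) (hA4 : A4_stmt) : C4a_stmt := by
  intro P A0 a y τ q ε hA0 hA hq hq1 hJ
  have hmem : A0 ∈ ball (0 : ℂ) 1 := by simpa using hA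
  obtain ⟨a1, a2, a3, a4, a5, a6, a7, a8, a9, a10⟩ := hA1 q A0 hq hq1 hA
  obtain ⟨b1, b2, b3, b4, b5, b6, b7⟩ := hA2 q A0 hq hq1 hA
  have hQ : Qf q A0 ≠ 0 := fun h => by rw [h] at a5; simp at a5
  have hR : Rf A0 ≠ 0 := fun h => by rw [h] at a2; simp at a2
  have hRp : Rf (psi q A0) ≠ 0 := by rw [b5]; exact hQ
  obtain ⟨hJ1, hJ2⟩ := hJ
  have hP1 : C4a_E2 (fun κ => (P κ).1) A0 (A0 * a / Rf A0 ^ 2) := hJ1
  have hP2 : C4a_E1 (fun κ => (P κ).2) (A0 * y / Rf A0) := hJ2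
  have hc := C4a_cos τ
  have hs := C4a_sin τ
  have hw := (hP1.mul hc).add (hP2.mul hs)
  have hw' : C4a_E2 (fun κ => (P κ).1 * Complex.cos ((τ * κ : ℝ) : ℂ) + (P κ).2 * Complex.sin ((τ * κ : ℝ) : ℂ))
      A0 (A0 * (a + τ * Rf A0 * y - τ ^ 2 * Rf A0 ^ 2 / 2) / Rf A0 ^ 2) := by
    have e1 : A0 * 1 + 0 = A0 := by ring
    have e2 : A0 * (-(τ : ℂ) ^ 2 / 2) + A0 * a / Rf A0 ^ 2 * 1 + A0 * y / Rf A0 * τ =
        A0 * (a + τ * Rf A0 * y - τ ^ 2 * Rf A0 ^ 2 / 2) / Rf A0 ^ 2 := by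
      field_simp
      ring
    rw [← e2]
    have := hw
    rwa [e1] at this
  clear hw
  have hb : C4a_E1 (fun κ => (P κ).2 * Complex.cos ((τ * κ : ℝ) : ℂ) - (P κ).1 * Complex.sin ((τ * κ : ℝ) : ℂ))
      (A0 * (y - τ * Rf A0) / Rf A0) := by
    have e1 := (hP2.mul_tendsto hc.tendsto).sub (hs.mul_tendsto hP1.tendsto)
    have e2 : A0 * y / Rf A0 * 1 - (τ : ℂ) * A0 = A0 * (y - τ * Rf A0) / Rf A0 := by
      field_simp
    rw [← e2]
    exact e1.congr (fun κ => by ring)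
  generalize hwdef : (fun κ => (P κ).1 * Complex.cos ((τ * κ : ℝ) : ℂ) + (P κ).2 * Complex.sin ((τ * κ : ℝ) : ℂ)) = w at hw'
  generalize hbdef : (fun κ => (P κ).2 * Complex.cos ((τ * κ : ℝ) : ℂ) - (P κ).1 * Complex.sin ((τ * κ : ℝ) : ℂ)) = b at hb
  have hwlt : ∀ᶠ κ in 𝓝 (0 : ℝ), ‖w κ‖ < 1 := by
    have := hw'.tendsto.eventually (isOpen_ball.mem_nhds hmem)
    filter_upwards [this] with κ hκ
    simpa using hκ
  have hpsi0 := hw'.comp (C4a_psi_deriv hA1 hA2 hA4 q A0 hq hq1 hA)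
  have hsc : Tendsto (fun κ => sc q (w κ)) (𝓝 0) (𝓝 (sc q A0)) :=
    ((hA4 q hq hq1).2.2.2.1 A0 hmem).continuousAt.tendsto.comp hw'.tendsto
  have hrho : Tendsto (fun κ => rho ε q (w κ)) (𝓝 0) (𝓝 (rho ε q A0)) :=
    ((hA4 q hq hq1).2.2.2.2 ε A0 hmem).continuousAt.tendsto.comp hw'.tendsto
  -- the two new coordinates in the rotated frame
  have hX : C4a_E2 (fun κ => sc q (w κ) * w κ) (psi q A0)
      (psi q A0 * (a + τ * Rf A0 * y - τ ^ 2 * Rf A0 ^ 2 / 2) / Rf (psi q A0) ^ 2) := by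
    have e1 : sc q A0 * Rf A0 ^ 2 / Rf (psi q A0) ^ 2 *
        (A0 * (a + τ * Rf A0 * y - τ ^ 2 * Rf A0 ^ 2 / 2) / Rf A0 ^ 2) =
        (psi q A0 * (a + τ * Rf A0 * y - τ ^ 2 * Rf A0 ^ 2 / 2) / Rf (psi q A0) ^ 2) := by
      rw [← b3]
      field_simp
    rw [e1] at hpsi0
    refine hpsi0.congr ?_
    filter_upwards [hwlt] with κ hκ
    rw [(hA2 q (w κ) hq hq1 hκ).2.2.1]
  have hY : C4a_E1 (fun κ => sc q (w κ) * rho ε q (w κ) * b κ)
      (psi q A0 * ((y - τ * Rf A0) * (bif ε then 1 else Rf (psi q A0) / Rf A0)) / Rf (psi q A0)) := by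
    have e1 := hb.mul_tendsto (hsc.mul hrho)
    have e2 : A0 * (y - τ * Rf A0) / Rf A0 * (sc q A0 * rho ε q A0) =
        psi q A0 * ((y - τ * Rf A0) * (bif ε then 1 else Rf (psi q A0) / Rf A0)) / Rf (psi q A0) := by
      have hp : psi q A0 = sc q A0 * A0 := b3.symm
      cases ε with
      | true =>
        simp only [rho, cond_true]
        rw [b5]
        rw [hp]
        field_simp
      | false =>
        simp only [rho, cond_false]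
        field_simp
        rw [hp]
        ring
    rw [e2] at e1
    exact e1.congr (fun κ => by ring)
  generalize hz : ((y - τ * Rf A0) * (bif ε then 1 else Rf (psi q A0) / Rf A0)) = z at hY ⊢
  have hstg : ∀ κ : ℝ, stg ε ((τ * κ : ℝ) : ℂ) q (P κ) =
      ((sc q (w κ) * w κ) * Complex.cos ((τ * κ : ℝ) : ℂ) - (sc q (w κ) * rho ε q (w κ) * b κ) * Complex.sin ((τ * κ : ℝ) : ℂ),
       (sc q (w κ) * w κ) * Complex.sin ((τ * κ : ℝ) : ℂ) + (sc q (w κ) * rho ε q (w κ) * b κ) * Complex.cos ((τ * κ : ℝ) : ℂ)) := by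
    intro κ
    rw [← hwdef, ← hbdef]
    rfl
  refine ⟨?_, ?_⟩
  · have e1 := (hX.mul hc).sub (hY.mul hs)
    have e2 : psi q A0 * 1 - 0 = psi q A0 := by ring
    have e3 : psi q A0 * (-(τ : ℂ) ^ 2 / 2) +
        psi q A0 * (a + τ * Rf A0 * y - τ ^ 2 * Rf A0 ^ 2 / 2) / Rf (psi q A0) ^ 2 * 1 -
        psi q A0 * z / Rf (psi q A0) * τ =
        psi q A0 * (a + τ * Rf A0 * y - τ ^ 2 * Rf A0 ^ 2 / 2 - τ * Rf (psi q A0) * z -
          τ ^ 2 * Rf (psi q A0) ^ 2 / 2) / Rf (psi q A0) ^ 2 := by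
      field_simp
      ring
    rw [e2, e3] at e1
    exact e1.congr (Eventually.of_forall (fun κ => by
      have := congrArg Prod.fst (hstg κ)
      exact this.symm))
  · have e1 := (hs.mul_tendsto hX.tendsto).add (hY.mul_tendsto hc.tendsto)
    have e3 : (τ : ℂ) * psi q A0 + psi q A0 * z / Rf (psi q A0) * 1 =
        psi q A0 * (z + τ * Rf (psi q A0)) / Rf (psi q A0) := by
      field_simp
      ring
    rw [e3] at e1
    refine e1.congr (fun κ => ?_)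
    have := congrArg Prod.snd (hstg κ)
    simp only at this ⊢
    rw [this]
    ring

end BB
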